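import Pool.Agent.helper80.SG.Spec

set_option autoImplicit false

namespace Pool.Agent.SG

open MvPolynomial Module Pool.Agent.SV

/-- base case, with `n = 2 + m` -/
theorem EQN_base (m : ℕ) :
    3 * ((2 + m) + 13) * (10 * (2 + m) + 1) ^ 2 * (11 * (2 + m) + 1) ≤
      4 * (2 + m) * ((2 + m) + 1) ^ 10 := by
  have h : 4 * (2 + m) * ((2 + m) + 1) ^ 10 =
      3 * ((2 + m) + 13) * (10 * (2 + m) + 1) ^ 2 * (11 * (2 + m) + 1) +
      (15957 + 1127412 * m + 2794347 * m ^ 2 + 3210240 * m ^ 3 + 2271180 * m ^ 4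
        + 1102248 * m ^ 5 + 381024 * m ^ 6 + 93960 * m ^ 7 + 16200 * m ^ 8 + 1860 * m ^ 9
        + 128 * m ^ 10 + 4 * m ^ 11) := by
    ring
  rw [h]
  exact Nat.le_add_right _ _

/-- step, with `a = (k - 1) n + 1` -/
theorem EQN_step (n a : ℕ) (hn : 2 ≤ n) (ha : 10 * n ≤ a) :
    (a + n) ^ 2 * (a + n + n) ≤ (n + 1) * (a ^ 2 * (a + n)) := by
  have h1 : (a + n) * (a + n + n) ≤ 3 * a ^ 2 := by nlinarith
  have h2 : (a + n) * (a + n + n) ≤ (n + 1) * a ^ 2 := by
    refine h1.trans ?_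
    exact Nat.mul_le_mul_right _ (by omega)
  calc (a + n) ^ 2 * (a + n + n) = (a + n) * ((a + n) * (a + n + n)) := by ring
    _ ≤ (a + n) * ((n + 1) * a ^ 2) := Nat.mul_le_mul_left _ h2
    _ = (n + 1) * (a ^ 2 * (a + n)) := by ring

theorem EQN : EQN_stmt := by
  intro k n hk hn
  induction k, hk using Nat.le_induction with
  | base =>
    obtain ⟨m, rfl⟩ := Nat.exists_eq_add_of_le hn
    exact EQN_base m
  | succ k hk ih =>
    obtain ⟨l, rfl⟩ := Nat.exists_eq_add_of_le hk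
    have e1 : 11 + l - 1 = 10 + l := by omega
    have e2 : 11 + l + 1 - 1 = 11 + l := by omega
    rw [e1] at ih
    rw [e2]
    have h3 := EQN_step n ((10 + l) * n + 1) hn (by nlinarith)
    have e3 : (10 + l) * n + 1 + n = (11 + l) * n + 1 := by ring
    have e4 : (11 + l) * n + 1 + n = (11 + l + 1) * n + 1 := by ring
    rw [e3, e4] at h3
    have h4 := Nat.mul_le_mul_left (3 * (n + 13)) h3
    have h5 := Nat.mul_le_mul_left (n + 1) ih
    calc 3 * (n + 13) * ((11 + l) * n + 1) ^ 2 * ((11 + l + 1) * n + 1)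
        = 3 * (n + 13) * (((11 + l) * n + 1) ^ 2 * ((11 + l + 1) * n + 1)) := by ring
      _ ≤ 3 * (n + 13) * ((n + 1) * (((10 + l) * n + 1) ^ 2 * ((11 + l) * n + 1))) := h4
      _ = (n + 1) * (3 * (n + 13) * ((10 + l) * n + 1) ^ 2 * ((11 + l) * n + 1)) := by ring
      _ ≤ (n + 1) * (4 * n * (n + 1) ^ (10 + l)) := h5
      _ = 4 * n * (n + 1) ^ (11 + l) := by
        rw [show 11 + l = (10 + l) + 1 by ring, pow_succ (n + 1) (10 + l)]
        ring

end Pool.Agent.SG
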